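import Pool.Agent.N603.DB.Nr
import Pool.Agent.N603.DB.PiF
import Pool.Agent.N603.DB.Nq

/-!
# The numbers `(π x)^(π x)` for the algebraic numbers `x` near almost every point

The number `π^π` is the value at `x = 1` of the function `(π x)^(π x)`. Let `θ` be a positive irrational number, for
instance `θ = π`. We consider the numbers `log x, x^θ, θ^x, θ^(θ x), x^x, x^(θ x)`, and so `(θ x)^(θ x) = θ^(θ x) x^(θ x)`,
at algebraic `x` outside `(-∞, 0]` (principal values). Let `c_0, c_1, …` be arbitrary complex numbers, for instance `1` or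
all powers of `π`.

We show: for all complex numbers `ξ` outside `(-∞, 0]` and outside a set of Hausdorff dimension ZERO, all number fields
`F` in `ℂ`, all degrees, all powers `A` and all exponents `τ > 0` there is `B` such that for all `C`: at ALL but finitely
many elements `x` of `F` with `|ξ - x| ≤ C T^(-τ)`, `T` the height of `x`, the six numbers are good: they satisfy no
polynomial relation of degree at most `d`, not even an approximate one, whose coefficients are combinations of the
numbers `c_0, …, c_(g-1)` with coefficients in `F` of height at most `T ^ A`, and together with `π` no such relation over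
`F`. In particular `(θ x)^(θ x)` is no element of `F` of height at most `T ^ A`. For real `ξ > 0` and rational `x` the
case `τ = 2` concerns all convergents of `ξ`; but every `τ > 0` is allowed, and for small `τ` there are very many `x`.
The real numbers `ξ` which are excluded also form a set of Hausdorff dimension zero.

Proof. The six functions are algebraically independent by Ax's theorem (`Pool.Agent.X39.Near.Ax`; the application is
by helper534, `MP_4c2ad3_nt.PowersAtAllRoots`); the elements of height at most `T` in a compact set which are bad at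
their own height are `O(T^ε)` in number for every `ε > 0` (determinants of Bombieri-Pila type), so that the limit
superior of the discs with radii `C T^(-τ)` around them has dimension at most `ε / τ`.
-/

set_option autoImplicit false

open NumberField

namespace Pool.Agent.Results.MP_4c2ad3_nt.NearEveryPoint

/-- The values of the functions `log x`, `x^θ`, `θ^x`, `θ^(θ x)`, `x^x`, `x^(θ x)`. -/
noncomputable def value (θ : ℝ) (x : ℂ) : Fin 6 → ℂ :=
  ![Complex.log x, x ^ (θ : ℂ), (θ : ℂ) ^ x, (θ : ℂ) ^ (θ * x), x ^ x, x ^ (θ * x)]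

/-- The polynomials of degree at most `d` in each variable, all of whose coefficients are of the form `∑ ξ_i ι(c_i)`, where
the `c_i` are integers of the number field `F` all of whose conjugates have absolute value at most `H`. -/
def Admissible {σ : Type} {g : ℕ} (F : Type) [Field F] [NumberField F] (ι : F →+* ℂ) (ξ : Fin g → ℂ) (d : ℕ) (H : ℝ)
    (P : MvPolynomial σ ℂ) : Prop :=
  (∀ y, P.degreeOf y ≤ d) ∧
    ∀ s, ∃ c : Fin g → 𝓞 F, (∀ i (φ : F →+* ℂ), ‖φ (c i)‖ ≤ H) ∧ P.coeff s = ∑ i, ξ i * ι (c i)

/-- The complex numbers `v` are good: every admissible polynomial takes at them a value which is at least `δ` times each of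
its coefficients, and `π` and these numbers satisfy no relation `Q = 0` with a nonzero polynomial `Q` of degree at most `d`
in each variable whose coefficients are integers of `F` with conjugates of absolute value at most `H`. -/
def Good {σ : Type} {g : ℕ} (F : Type) [Field F] [NumberField F] (ι : F →+* ℂ) (ξ : Fin g → ℂ) (d : ℕ)
    (H δ : ℝ) (v : σ → ℂ) : Prop :=
  (∀ P : MvPolynomial σ ℂ, Admissible F ι ξ d H P → ∀ s, δ * ‖P.coeff s‖ ≤ ‖MvPolynomial.aeval v P‖) ∧
  ∀ Q : MvPolynomial (Option σ) (𝓞 F), Q ≠ 0 → (∀ x, Q.degreeOf x ≤ d) →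
    (∀ s (φ : F →+* ℂ), ‖φ ((Q.coeff s : 𝓞 F) : F)‖ ≤ H) →
    MvPolynomial.eval₂ (ι.comp (algebraMap (𝓞 F) F)) (fun o => o.elim (Real.pi : ℂ) v) Q ≠ 0

/-- The element `x` of `F` is a quotient of integers all of whose conjugates have absolute value at most `T`. -/
def HeightLe (F : Type) [Field F] [NumberField F] (T : ℝ) (x : F) : Prop :=
  ∃ a b : 𝓞 F, b ≠ 0 ∧ (∀ φ : F →+* ℂ, ‖φ a‖ ≤ T ∧ ‖φ b‖ ≤ T) ∧ x = a / b

/-- The height of `x`: the least `T` such that `x` is a quotient of two integers of `F` all of whose conjugates have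
absolute value at most `T`. -/
noncomputable def height (F : Type) [Field F] [NumberField F] (x : F) : ℝ := sInf {T : ℝ | HeightLe F T x}

theorem value_eq (θ : ℝ) (x : ℂ) (j : Fin 6) : value θ x j = Pool.Agent.N603.DB.PiF.values θ j x := by
  fin_cases j <;> rfl

/-- **The numbers `(π x)^(π x)` near every point.** Let `θ` be a positive irrational number, for instance `π` (see
`irrational_pi`), and let `c_0, c_1, …` be complex numbers. There is a set `E` in `ℂ` of Hausdorff dimension zero such
that for all `ξ` in the plane without `(-∞, 0]` which are not in `E`, all number fields `F` in `ℂ`, all `g`, `d`, `A`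
and all `τ > 0`:
(1) There is `B` such that for all `C` there is `T₁` such that for ALL `x` in `F` of height `T ≥ T₁` with
`|ξ - x| ≤ C T^(-τ)` the six numbers at `x` are good, for the degree `d`, the height `T ^ A`, the numbers
`c_0, …, c_(g-1)` and the measure `T ^ (-B)`.
(2) For all `C` there is `T₁` such that for ALL `x` in `F` of height `T ≥ T₁` with `|ξ - x| ≤ C T^(-τ)` the number
`(θ x)^(θ x)` is no element of `F` of height at most `T ^ A`.
The real numbers in `E` form a set of Hausdorff dimension zero in `ℝ`. Only finitely many elements of `F` have a height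
less than `T₁`; the infimum in the definition of the height is a minimum. -/
theorem result :
    (∀ θ : ℝ, 0 < θ → Irrational θ → ∀ c : ℕ → ℂ,
      ∃ E : Set ℂ, dimH E = 0 ∧ dimH {y : ℝ | (y : ℂ) ∈ E} = 0 ∧
        ∀ ξ ∈ Complex.slitPlane, ξ ∉ E → ∀ (F : IntermediateField ℚ ℂ) [NumberField F] (g d : ℕ) (A τ : ℝ), 0 < τ →
          (∃ B : ℝ, ∀ C : ℝ, ∃ T₁ : ℝ, ∀ x : F, T₁ ≤ height F x →
            ‖ξ - (x : ℂ)‖ ≤ C * height F x ^ (-τ) → (x : ℂ) ∈ Complex.slitPlane ∧
              Good F (algebraMap F ℂ) (fun i : Fin g => c i) d (height F x ^ A) (height F x ^ (-B))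
                (value θ x)) ∧
          ∀ C : ℝ, ∃ T₁ : ℝ, ∀ x : F, T₁ ≤ height F x →
            ‖ξ - (x : ℂ)‖ ≤ C * height F x ^ (-τ) →
              ∀ y : F, height F y ≤ height F x ^ A → ((θ : ℂ) * x) ^ ((θ : ℂ) * x) ≠ (y : ℂ)) ∧
    (∀ (F : Type) [Field F] [NumberField F] (x : F) (T : ℝ), height F x ≤ T ↔ HeightLe F T x) ∧
    ∀ (F : Type) [Field F] [NumberField F] (T : ℝ), {x : F | height F x < T}.Finite := by
  refine ⟨fun θ hθ hθi c => ?_, fun F _ _ x T => Pool.Agent.N603.DA.ht_le_iff F x T, fun F _ _ T => ?_⟩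
  · have hv : ∀ x : ℂ, (fun j : Fin 6 => Pool.Agent.N603.DB.PiF.values θ j x) = value θ x := fun x =>
      funext fun j => (value_eq θ x j).symm
    obtain ⟨E, hE, h⟩ := Pool.Agent.N603.DB.near_every (Pool.Agent.N603.DB.PiF.values θ) Complex.slitPlane
      Complex.isOpen_slitPlane (fun j x hx => Pool.Agent.N603.DB.PiF.an hθ j x hx)
      (Pool.Agent.N603.DB.PiF.loc hθ hθi) c
    obtain ⟨E', hE', h'⟩ := Pool.Agent.N603.DB.near_every (Pool.Agent.N603.DB.PiF.values θ) Complex.slitPlane
      Complex.isOpen_slitPlane (fun j x hx => Pool.Agent.N603.DB.PiF.an hθ j x hx)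
      (Pool.Agent.N603.DB.PiF.loc hθ hθi) (fun _ => 1)
    have hEE : dimH (E ∪ E') = 0 := by rw [dimH_union, hE, hE', max_self]
    refine ⟨E ∪ E', hEE, Pool.Agent.N603.DB.dim_real hEE, fun ξ hξ hξE F _ g d A τ hτ => ⟨?_, fun C => ?_⟩⟩
    · obtain ⟨B, hB⟩ := h ξ hξ (fun h1 => hξE (Or.inl h1)) F g d A τ hτ
      refine ⟨B, fun C => ?_⟩
      obtain ⟨T₁, hT₁⟩ := hB C
      refine ⟨T₁, fun x hx hd => ?_⟩
      have h1 := hT₁ x hx hd
      rw [hv] at h1
      exact h1
    · obtain ⟨B, hB⟩ := h' ξ hξ (fun h1 => hξE (Or.inr h1)) F 1 1 A τ hτ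
      obtain ⟨T₁, hT₁⟩ := hB C
      refine ⟨T₁, fun x hx hd y hy => ?_⟩
      obtain ⟨hxS, h1⟩ := hT₁ x hx hd
      have hx0 : (x : ℂ) ≠ 0 := Complex.slitPlane_ne_zero hxS
      have hpos : 0 < Pool.Agent.N603.DA.ht F x ^ (-B) :=
        Real.rpow_pos_of_pos (by linarith [Pool.Agent.N603.DA.one_le_ht F x]) _
      obtain ⟨a, b', hb, hab, hyab⟩ := (Pool.Agent.N603.DA.ht_le_iff F y _).1 hy
      have h2 := Pool.Agent.N603.DB.not_quot (i := 3) (j := 5) hpos (by decide) h1 a b' hb hab
      rw [Pool.Agent.N603.DB.PiF.pow_self hθ hx0, hyab]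
      exact h2
  · exact Pool.Agent.N603.DB.fin_lt F T

end Pool.Agent.Results.MP_4c2ad3_nt.NearEveryPoint
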