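import Pool.Agent.N671.PP.Four
import Pool.Agent.TH419.FS.Consts

/-!
# The numbers `(r π) ^ π` which are very close to rational numbers

For every `H ≥ 2` the positive rational numbers `r` of height at most `H` for which `(r π) ^ π` is within
`exp (- C (log H) ^ 15)` of a rational number with denominator at most `H` are few: they lie in one coset of a
group of rank at most two (any four of them have multiplicatively dependent quotients), at most three of them are
primes, and at most `(2 log₂ N + 1) ^ 2` of them have height at most `N`, for every `N ≤ H`. For `r = 1` the number is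
`π ^ π`. The same holds for the numbers `u r ^ θ`, `θ > 0` with `|q θ - p| ≥ exp (- κ q)`, with a constant which does not
depend on the real number `u > 0`.

The proof: quotients eliminate `u`; the uniform six exponentials theorem for rational numbers
(`Pool.Agent.N886.SE.core`, interpolation determinants of real exponentials) is applied to the three quotients.
-/

set_option autoImplicit false

namespace Pool.Agent.Results.MP_4c2ad3_nt.NearRationalPiPowers

open Pool.Agent.N671.PP Pool.Agent.N886.SE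

/-- `|q θ - p| ≥ exp (- κ q)` for all integers `p` and `q ≥ 1`, for some constant `κ` -/
def Moderate (θ : ℝ) : Prop :=
  ∃ κ : ℝ, ∀ q : ℕ, 1 ≤ q → ∀ p : ℤ, Real.exp (-(κ * q)) ≤ |(q : ℝ) * θ - p|

/-- the positive rational numbers whose numerator and denominator are at most `H` -/
def Height (H : ℕ) : Set ℚ := {r | 0 < r ∧ r.num ≤ H ∧ r.den ≤ H}

/-- the `r` of height at most `H` for which `u r ^ θ = (1 + η) s` with `s` of height at most `H` and `|η| ≤ δ` -/
def NearMultiple (u θ δ : ℝ) (H : ℕ) : Set ℚ :=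
  {r | r ∈ Height H ∧ ∃ s ∈ Height H, |u * (r : ℝ) ^ θ / s - 1| ≤ δ}

/-- the `r` of height at most `H` for which `(r π) ^ π` is within `exp (- C (log H) ^ 15)` of a rational number `p / q` with
`1 ≤ q ≤ H` -/
def NearPi (C : ℝ) (H : ℕ) : Set ℚ :=
  {r | r ∈ Height H ∧ ∃ (p : ℤ) (q : ℕ), 1 ≤ q ∧ q ≤ H ∧
    |((r : ℝ) * Real.pi) ^ Real.pi - (p : ℝ) / (q : ℝ)| ≤ Real.exp (-(C * Real.log H ^ 15))}

/-- the set `E` is finite, any four members have multiplicatively dependent quotients, at most three members are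
primes, and at most `(2 log₂ N + 1) ^ 2` members have height at most `N`, for all `N ≤ H` -/
def Few (H : ℕ) (E : Set ℚ) : Prop :=
  E.Finite ∧
  (∀ a ∈ E, ∀ b ∈ E, ∀ c ∈ E, ∀ d ∈ E, ∃ x y z : ℤ, (x ≠ 0 ∨ y ≠ 0 ∨ z ≠ 0) ∧
    (b / a) ^ x * (c / a) ^ y * (d / a) ^ z = 1) ∧
  {p : ℕ | p.Prime ∧ (p : ℚ) ∈ E}.ncard ≤ 3 ∧
  ∀ N : ℕ, N ≤ H → {r | r ∈ E ∧ r ∈ Height N}.ncard ≤ (2 * Nat.log 2 N + 1) ^ 2

theorem height_finite (H : ℕ) : (Height H).Finite := by
  have h1 : ((Set.Icc (0 : ℤ) H) ×ˢ (Set.Icc 0 H : Set ℕ)).Finite :=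
    (Set.finite_Icc _ _).prod (Set.finite_Icc _ _)
  refine (h1.preimage (f := fun r : ℚ => (r.num, r.den)) ?_).subset ?_
  · intro r _ s _ h
    simp only [Prod.mk.injEq] at h
    exact Rat.ext h.1 h.2
  · intro r hr
    have := Rat.num_pos.2 hr.1
    exact ⟨⟨this.le, hr.2.1⟩, ⟨Nat.zero_le _, hr.2.2⟩⟩

theorem few_of {H : ℕ} {E : Set ℚ} (hE : E ⊆ Height H) (hd : Dep E) : Few H E := by
  classical
  have hfin : E.Finite := (height_finite H).subset hE
  refine ⟨hfin, hd, ?_, fun N _ => ?_⟩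
  · have hf : {p : ℕ | p.Prime ∧ (p : ℚ) ∈ E}.Finite := by
      refine (hfin.preimage (f := fun p : ℕ => (p : ℚ)) ?_).subset fun p hp => hp.2
      exact Set.injOn_of_injective Nat.cast_injective
    rw [Set.ncard_eq_toFinset_card _ hf]
    refine primes_card_le _ (fun n hn => ((Set.Finite.mem_toFinset hf).1 hn).1) ?_
    have hsub : ∀ r ∈ {r : ℚ | ∃ n ∈ hf.toFinset, (n : ℚ) = r}, r ∈ E := by
      rintro r ⟨n, hn, rfl⟩
      exact ((Set.Finite.mem_toFinset hf).1 hn).2
    exact fun a ha b hb c hc d hd' => hd a (hsub a ha) b (hsub b hb) c (hsub c hc) d (hsub d hd')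
  · have hf : {r | r ∈ E ∧ r ∈ Height N}.Finite := hfin.subset fun r hr => hr.1
    rw [Set.ncard_eq_toFinset_card _ hf]
    refine card_le _ N (fun r hr => ((Set.Finite.mem_toFinset hf).1 hr).2) ?_
    have hsub : ∀ r ∈ (hf.toFinset : Set ℚ), r ∈ E := by
      intro r hr
      exact ((Set.Finite.mem_toFinset hf).1 (Finset.mem_coe.1 hr)).1
    exact fun a ha b hb c hc d hd' => hd a (hsub a ha) b (hsub b hb) c (hsub c hc) d (hsub d hd')

theorem dep_mono {E F : Set ℚ} (h : E ⊆ F) (hF : Dep F) : Dep E :=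
  fun a ha b hb c hc d hd => hF a (h ha) b (h hb) c (h hc) d (h hd)

theorem moderate_of {θ c s : ℝ} (hc : 0 < c) (hs : 0 ≤ s)
    (h : ∀ q : ℕ, 1 ≤ q → ∀ p : ℤ, c ≤ (q : ℝ) ^ s * |(q : ℝ) * θ - p|) : Moderate θ := by
  refine ⟨|Real.log c| + s, fun q hq p => ?_⟩
  have hqR : (1 : ℝ) ≤ q := by exact_mod_cast hq
  have hq0 : (0 : ℝ) < q := by linarith
  have h1 := h q hq p
  have hlq : Real.log q ≤ q := (Real.log_le_sub_one_of_pos hq0).trans (by linarith)
  have h2 : (q : ℝ) ^ s = Real.exp (Real.log q * s) := Real.rpow_def_of_pos hq0 s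
  have h3 : Real.exp (-((|Real.log c| + s) * q)) * (q : ℝ) ^ s ≤ c := by
    rw [h2, ← Real.exp_add]
    calc Real.exp (-((|Real.log c| + s) * q) + Real.log q * s) ≤ Real.exp (Real.log c) := by
          refine Real.exp_le_exp.2 ?_
          have e1 : Real.log q * s ≤ q * s := mul_le_mul_of_nonneg_right hlq hs
          have e2 : |Real.log c| ≤ |Real.log c| * q := le_mul_of_one_le_right (abs_nonneg _) hqR
          have e3 := neg_abs_le (Real.log c)
          nlinarith
      _ = c := Real.exp_log hc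
  have h4 : 0 < (q : ℝ) ^ s := Real.rpow_pos_of_pos hq0 s
  have h5 : Real.exp (-((|Real.log c| + s) * q)) * (q : ℝ) ^ s ≤ |(q : ℝ) * θ - p| * (q : ℝ) ^ s := by
    refine h3.trans (h1.trans (le_of_eq (mul_comm _ _)))
  exact le_of_mul_le_mul_right h5 h4

theorem moderate_pi : Moderate Real.pi := by
  obtain ⟨c, hc, h⟩ := Pool.Agent.TH419.FS.meas_pi
  exact moderate_of hc (by norm_num) h

theorem moderate_e : Moderate (Real.exp 1) := by
  obtain ⟨c, hc, h⟩ := Pool.Agent.TH419.FS.meas_exp (η := 1) one_pos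
  exact moderate_of hc (by norm_num) h

theorem log_bound {H : ℕ} (hH : 2 ≤ H) : 4 * Real.log H + 1 ≤ 1000 * Real.log H ^ 15 := by
  have hHR : (2 : ℝ) ≤ H := by exact_mod_cast hH
  have hlog2 : 0.6931471803 < Real.log 2 := Real.log_two_gt_d9
  have hL : 0.6931 ≤ Real.log H := by
    have := Real.log_le_log (by norm_num) hHR
    linarith
  have h14 : (0.6931 : ℝ) ^ 14 ≤ Real.log H ^ 14 := pow_le_pow_left₀ (by norm_num) hL 14
  have h14' : (0.0058 : ℝ) ≤ Real.log H ^ 14 := le_trans (by norm_num) h14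
  have h15 : Real.log H ^ 15 = Real.log H * Real.log H ^ 14 := by ring
  have hL0 : 0 ≤ Real.log H := by linarith
  rw [h15]
  nlinarith [mul_le_mul_of_nonneg_left h14' hL0]

/-- **Main result.** -/
theorem result :
    (Moderate Real.pi ∧ Moderate (Real.exp 1)) ∧
    (∀ θ : ℝ, 0 < θ → Moderate θ → ∃ C : ℝ, 0 < C ∧ ∀ u : ℝ, 0 < u → ∀ H : ℕ, 2 ≤ H →
      Few H (NearMultiple u θ (Real.exp (-(C * Real.log H ^ 15))) H)) ∧
    ∃ C : ℝ, 0 < C ∧ ∀ H : ℕ, 2 ≤ H → Few H (NearPi C H) := by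
  refine ⟨⟨moderate_pi, moderate_e⟩, ?_, ?_⟩
  · rintro θ hθ ⟨κ, hκ⟩
    have hκ' : ∀ q : ℕ, 1 ≤ q → ∀ p : ℤ, Real.exp (-(max κ 0 * q)) ≤ |(q : ℝ) * θ - p| := fun q hq p =>
      (Real.exp_le_exp.2 (neg_le_neg (mul_le_mul_of_nonneg_right (le_max_left _ _) (Nat.cast_nonneg _)))).trans
        (hκ q hq p)
    have hm : 0 ≤ max κ 0 := le_max_right _ _
    set C : ℝ := (max κ 0 + 2) * (2002 * (1 + θ)) ^ 15 with hC
    have hC0 : 0 < C := by positivity
    refine ⟨C + 1000, by linarith, fun u hu H hH => ?_⟩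
    refine few_of (fun r hr => hr.1) ?_
    refine dep_mono ?_ (four hθ hm hκ' le_rfl u hH)
    rintro r ⟨hr, s, hs, hrs⟩
    refine ⟨hr.1, hr.2.1, hr.2.2, s, hs.1, hs.2.1, hs.2.2, ?_⟩
    have hb := log_bound hH
    have hlogH : 0 < Real.log H := Real.log_pos (by exact_mod_cast hH)
    have hr0 : (0 : ℝ) < r := by exact_mod_cast hr.1
    have hs0 : (0 : ℝ) < s := by exact_mod_cast hs.1
    have h2exp : (2 : ℝ) ≤ Real.exp 1 := by
      have := Real.add_one_le_exp (1 : ℝ)
      linarith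
    have hsmall : 2 * Real.exp (-((C + 1000) * Real.log H ^ 15)) ≤ Real.exp (-(C * Real.log H ^ 15)) := by
      calc 2 * Real.exp (-((C + 1000) * Real.log H ^ 15))
          ≤ Real.exp 1 * Real.exp (-((C + 1000) * Real.log H ^ 15)) :=
            mul_le_mul_of_nonneg_right h2exp (Real.exp_pos _).le
        _ = Real.exp (1 + -((C + 1000) * Real.log H ^ 15)) := (Real.exp_add _ _).symm
        _ ≤ _ := Real.exp_le_exp.2 (by nlinarith)
    have hone : Real.exp (-(C * Real.log H ^ 15)) ≤ 1 := Real.exp_le_one_iff.2 (by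
      have : 0 ≤ C * Real.log H ^ 15 := by positivity
      linarith)
    have hlc := log_close (x := 1) (y := u * (r : ℝ) ^ θ / s) le_rfl
      (ε := Real.exp (-((C + 1000) * Real.log H ^ 15))) (by linarith) (by rwa [abs_sub_comm])
    have hpos : 0 < u * (r : ℝ) ^ θ := mul_pos hu (Real.rpow_pos_of_pos hr0 θ)
    rw [Real.log_one, sub_zero, Real.log_div hpos.ne' hs0.ne', Real.log_mul hu.ne'
      (Real.rpow_pos_of_pos hr0 θ).ne', Real.log_rpow hr0] at hlc
    rw [abs_sub_comm]
    exact hlc.2.trans hsmall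
  · obtain ⟨κ, hκ⟩ := moderate_pi
    have hκ' : ∀ q : ℕ, 1 ≤ q → ∀ p : ℤ, Real.exp (-(max κ 0 * q)) ≤ |(q : ℝ) * Real.pi - p| := fun q hq p =>
      (Real.exp_le_exp.2 (neg_le_neg (mul_le_mul_of_nonneg_right (le_max_left _ _) (Nat.cast_nonneg _)))).trans
        (hκ q hq p)
    have hm : 0 ≤ max κ 0 := le_max_right _ _
    set C : ℝ := (max κ 0 + 2) * (2002 * (1 + Real.pi)) ^ 15 with hC
    have hpi0 := Real.pi_pos
    have hpi3 := Real.pi_gt_three
    have hpi4 := Real.pi_lt_four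
    have hC0 : 0 < C := by positivity
    refine ⟨14 ^ 15 * C + 1000, by positivity, fun H hH => ?_⟩
    refine few_of (fun r hr => hr.1) ?_
    have hH14 : 2 ≤ H ^ 14 := le_trans hH (Nat.le_self_pow (by norm_num) H)
    refine dep_mono ?_ (four hpi0 hm hκ' le_rfl (Real.pi ^ Real.pi) hH14)
    rintro r ⟨hr, p, q, hq1, hqH, hpq⟩
    have hb := log_bound hH
    have hHR : (2 : ℝ) ≤ H := by exact_mod_cast hH
    have hlogH : 0 < Real.log H := Real.log_pos (by exact_mod_cast hH)
    have hlog14 : Real.log ((H ^ 14 : ℕ) : ℝ) = 14 * Real.log H := by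
      rw [Nat.cast_pow, Real.log_pow]
      norm_num
    have hr0 : (0 : ℝ) < r := by exact_mod_cast hr.1
    have hrn : 0 < r.num := Rat.num_pos.2 hr.1
    have hqR : (1 : ℝ) ≤ q := by exact_mod_cast hq1
    set x : ℝ := ((r : ℝ) * Real.pi) ^ Real.pi with hx
    have hrH : (r : ℝ) ≤ H := by
      have h1 : (r : ℝ) = (r.num : ℝ) / (r.den : ℝ) := by
        exact_mod_cast (Rat.num_div_den r).symm
      have h2 : (1 : ℝ) ≤ r.den := by exact_mod_cast r.den_pos
      have h3 : (r.num : ℝ) ≤ H := by exact_mod_cast hr.2.1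
      rw [h1, div_le_iff₀ (by linarith)]
      nlinarith
    have hrH' : 1 / (H : ℝ) ≤ r := by
      have h1 : (r : ℝ) = (r.num : ℝ) / (r.den : ℝ) := by
        exact_mod_cast (Rat.num_div_den r).symm
      have h2 : (1 : ℝ) ≤ r.den := by exact_mod_cast r.den_pos
      have h3 : (r.den : ℝ) ≤ H := by exact_mod_cast hr.2.2
      have h4 : (1 : ℝ) ≤ r.num := by exact_mod_cast hrn
      rw [h1, div_le_div_iff₀ (by linarith) (by linarith)]
      nlinarith
    have hxle : x ≤ (H : ℝ) ^ 12 := by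
      have h1 : (r : ℝ) * Real.pi ≤ 4 * H := by nlinarith
      have h2 : (1 : ℝ) ≤ 4 * H := by linarith
      calc x ≤ (4 * (H : ℝ)) ^ Real.pi := Real.rpow_le_rpow (by positivity) h1 hpi0.le
        _ ≤ (4 * (H : ℝ)) ^ (4 : ℝ) := Real.rpow_le_rpow_of_exponent_le h2 hpi4.le
        _ = (4 * (H : ℝ)) ^ 4 := by
            rw [show (4 : ℝ) = ((4 : ℕ) : ℝ) by norm_num, Real.rpow_natCast]
        _ ≤ ((H : ℝ) ^ 3) ^ 4 := pow_le_pow_left₀ (by positivity) (by
            have : (4 : ℝ) ≤ (H : ℝ) ^ 2 := by nlinarith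
            calc 4 * (H : ℝ) ≤ (H : ℝ) ^ 2 * H := mul_le_mul_of_nonneg_right this (by linarith)
              _ = (H : ℝ) ^ 3 := by ring) 4
        _ = (H : ℝ) ^ 12 := by ring
    have hxge : Real.exp (-(4 * Real.log H)) ≤ x := by
      have h1 : 1 / (H : ℝ) ≤ (r : ℝ) * Real.pi := by nlinarith
      have h2 : 1 / (H : ℝ) ≤ 1 := by
        rw [div_le_one (by linarith)]
        linarith
      have h3 : 0 < 1 / (H : ℝ) := by positivity
      calc Real.exp (-(4 * Real.log H)) = (1 / (H : ℝ)) ^ (4 : ℝ) := by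
            rw [Real.rpow_def_of_pos h3, Real.log_div one_ne_zero (by linarith), Real.log_one]
            congr 1
            ring
        _ ≤ (1 / (H : ℝ)) ^ Real.pi := Real.rpow_le_rpow_of_exponent_ge h3 h2 hpi4.le
        _ ≤ x := Real.rpow_le_rpow h3.le h1 hpi0.le
    have hx0 : 0 < x := lt_of_lt_of_le (Real.exp_pos _) hxge
    set ε : ℝ := Real.exp (-((14 ^ 15 * C + 1000) * Real.log H ^ 15)) with hε
    have hε0 : 0 < ε := Real.exp_pos _
    have h2exp : (2 : ℝ) ≤ Real.exp 1 := by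
      have := Real.add_one_le_exp (1 : ℝ)
      linarith
    have hεx : 2 * (ε / x) ≤ Real.exp (-(C * Real.log ((H ^ 14 : ℕ) : ℝ) ^ 15)) := by
      have h1 : ε / x ≤ ε * Real.exp (4 * Real.log H) := by
        rw [div_le_iff₀ hx0]
        have : Real.exp (4 * Real.log H) * x ≥ 1 := by
          calc (1 : ℝ) = Real.exp (4 * Real.log H) * Real.exp (-(4 * Real.log H)) := by
                rw [← Real.exp_add, add_neg_cancel, Real.exp_zero]
            _ ≤ Real.exp (4 * Real.log H) * x := mul_le_mul_of_nonneg_left hxge (Real.exp_pos _).le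
        nlinarith
      calc 2 * (ε / x) ≤ Real.exp 1 * (ε * Real.exp (4 * Real.log H)) := by
            refine mul_le_mul h2exp h1 (by positivity) (by positivity)
        _ = Real.exp (1 + (-((14 ^ 15 * C + 1000) * Real.log H ^ 15) + 4 * Real.log H)) := by
            rw [hε, Real.exp_add, Real.exp_add]
        _ ≤ _ := by
            refine Real.exp_le_exp.2 ?_
            rw [hlog14, mul_pow]
            nlinarith
    have hone : Real.exp (-(C * Real.log ((H ^ 14 : ℕ) : ℝ) ^ 15)) ≤ 1 := Real.exp_le_one_iff.2 (by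
      rw [hlog14]
      have : 0 ≤ C * (14 * Real.log H) ^ 15 := by positivity
      linarith)
    set s : ℚ := (p : ℚ) / (q : ℚ) with hs
    have hsR : (s : ℝ) = (p : ℝ) / (q : ℝ) := by simp [hs]
    have hlc := log_close (x := 1) (y := (s : ℝ) / x) le_rfl (ε := ε / x) (by linarith) (by
      rw [hsR]
      have e : (1 : ℝ) - (p : ℝ) / (q : ℝ) / x = (x - (p : ℝ) / (q : ℝ)) / x := by
        field_simp
      rw [e, abs_div, abs_of_pos hx0]
      exact div_le_div_of_nonneg_right hpq hx0.le)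
    have hs0R : (0 : ℝ) < s := by
      have := mul_pos hlc.1 hx0
      rwa [div_mul_cancel₀ _ hx0.ne'] at this
    have hs0 : 0 < s := by exact_mod_cast hs0R
    have hq0 : (0 : ℝ) < q := by linarith
    have hp0R : (0 : ℝ) < p := by
      rw [hsR] at hs0R
      have := mul_pos hs0R hq0
      rwa [div_mul_cancel₀ _ hq0.ne'] at this
    have hp0 : 0 < p := by exact_mod_cast hp0R
    have hεle : ε ≤ 1 := Real.exp_le_one_iff.2 (by
      have : 0 ≤ (14 ^ 15 * C + 1000) * Real.log H ^ 15 := by positivity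
      linarith)
    have hqHR : (q : ℝ) ≤ H := by exact_mod_cast hqH
    have hpH : p ≤ ((H ^ 14 : ℕ) : ℤ) := by
      have h1 : (p : ℝ) / q ≤ x + 1 := by
        have := (abs_le.1 hpq).1
        linarith
      have h2 : (p : ℝ) ≤ (x + 1) * q := by rwa [div_le_iff₀ hq0] at h1
      have h3 : (1 : ℝ) ≤ (H : ℝ) ^ 12 := one_le_pow₀ (by linarith)
      have h4 : (p : ℝ) ≤ (H : ℝ) ^ 14 := by
        calc (p : ℝ) ≤ (x + 1) * q := h2
          _ ≤ (2 * (H : ℝ) ^ 12) * H := mul_le_mul (by linarith) hqHR hq0.le (by positivity)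
          _ ≤ (H * (H : ℝ) ^ 12) * H := by
              refine mul_le_mul_of_nonneg_right ?_ (by linarith)
              exact mul_le_mul_of_nonneg_right hHR (by positivity)
          _ = (H : ℝ) ^ 14 := by ring
      exact_mod_cast h4
    have hHle : (H : ℤ) ≤ ((H ^ 14 : ℕ) : ℤ) := by
      exact_mod_cast Nat.le_self_pow (by norm_num) H
    have hHle' : H ≤ H ^ 14 := Nat.le_self_pow (by norm_num) H
    have hdiv : s = Rat.divInt p q := by
      rw [hs, Rat.divInt_eq_div]
      push_cast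
      rfl
    refine ⟨hr.1, hr.2.1.trans hHle, hr.2.2.trans hHle', s, hs0, ?_, ?_, ?_⟩
    · have h1 : s.num ∣ p := by
        rw [hdiv]
        exact Rat.num_dvd p (by exact_mod_cast (by omega : q ≠ 0))
      exact (Int.le_of_dvd hp0 h1).trans hpH
    · have h1 : (s.den : ℤ) ∣ (q : ℤ) := by
        rw [hdiv]
        exact Rat.den_dvd p q
      have h2 : s.den ≤ q := Nat.le_of_dvd hq1 (by exact_mod_cast h1)
      exact (h2.trans hqH).trans hHle'
    · have h1 := hlc.2
      rw [Real.log_one, sub_zero, Real.log_div hs0R.ne' hx0.ne'] at h1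
      have h2 : Real.log x = Real.log (Real.pi ^ Real.pi) + Real.pi * Real.log r := by
        rw [hx, Real.mul_rpow hr0.le hpi0.le, Real.log_mul (Real.rpow_pos_of_pos hr0 _).ne'
          (Real.rpow_pos_of_pos hpi0 _).ne', Real.log_rpow hr0]
        ring
      rw [← h2]
      exact h1.trans hεx

end Pool.Agent.Results.MP_4c2ad3_nt.NearRationalPiPowers
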