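import Pool.Agent.N603.DB.Rx
import Pool.Agent.N603.DB.PiF
import Pool.Agent.N603.DB.Nq

/-!
# The numbers `(π x)^(π x)` and denominators of good simultaneous approximations

The number `π^π` is the value at `x = 1` of the function `(π x)^(π x)`. Let `θ` be a positive irrational number, for
instance `θ = π`. We consider the numbers `log x, x^θ, θ^x, θ^(θ x), x^x, x^(θ x)`, and so `(θ x)^(θ x) = θ^(θ x) x^(θ x)`,
at algebraic `x` outside `(-∞, 0]` (principal values).

Let `α_1, …, α_m` be real numbers. We consider the natural numbers `q` with `‖q α_j - β_j‖ ≤ C q^(-τ)` for all `j`,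
`‖x‖` the distance to the nearest integer; for `β = 0`, `C = 1`, `τ = 1 / m` these include the denominators of all
best simultaneous approximations (the denominators of the convergents for `m = 1`). They form a very sparse sequence,
with gaps growing exponentially for almost all `α` if `τ = 1 / m`. Let `G` be a function with steps bounded below by a
positive constant and growth at most `v^e`, for example `a v^e`, and `c_0, c_1, …` arbitrary complex numbers, for
instance `1` or all powers of `π`. We show: for all `α` in `ℝ^m` outside a set of Hausdorff dimension at most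
`(m + κ) / (1 + τ)`, for all number fields `F` in `ℂ`, all degrees, all powers `A` and all compact sets in the domain:
for all but finitely many of these `q`, at EVERY element `x` of `F` in the compact set with a height within `q^κ` of
`G q` the six numbers are good: they satisfy no polynomial relation of degree at most `d`, not even an approximate one,
whose coefficients are combinations of the numbers `c_0, …, c_(g-1)` with coefficients in `F` of height at most `T ^ A`,
`T` the height of `x`, and together with `π` no such relation over `F`. In particular `(θ x)^(θ x)` is no element of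
`F` of height at most `T ^ A`. For `τ = 1 / m` and `κ < 1` the bound is less than `m`, so that the statement holds for
almost all `α`. For rational `x` in `(0, 1)` the height is the denominator; with `G q = q` the theorem contains the
fractions `x = p / q`.

Proof. The six functions are algebraically independent by Ax's theorem (`Pool.Agent.X39.Near.Ax`; the application is
by helper534, `MP_4c2ad3_nt.PowersAtAllRoots`); the elements of height at most `T` in a compact set which are bad at
their own height are `O(T^ε)` in number for every `ε > 0` (determinants of Bombieri-Pila type); the `q` for which a bad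
element has a height near `G q` form a set with `O(X^(κ + ε))` elements up to `X`, and the `α` with infinitely many
approximations with denominators in such a set are covered by few small cubes (`Pool.Agent.N671.DA`). There are only
countably many number fields in `ℂ`.
-/

set_option autoImplicit false

open NumberField

namespace Pool.Agent.Results.MP_4c2ad3_nt.SimultaneousApproximations

open Pool.Agent.N671.DA (Solves Expanding expanding_pow)

/-- The values of the functions `log x`, `x^θ`, `θ^x`, `θ^(θ x)`, `x^x`, `x^(θ x)`. -/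
noncomputable def value (θ : ℝ) (x : ℂ) : Fin 6 → ℂ :=
  ![Complex.log x, x ^ (θ : ℂ), (θ : ℂ) ^ x, (θ : ℂ) ^ (θ * x), x ^ x, x ^ (θ * x)]

/-- The polynomials of degree at most `d` in each variable, all of whose coefficients are of the form `∑ ξ_i ι(c_i)`, where
the `c_i` are integers of the number field `F` all of whose conjugates have absolute value at most `H`. -/
def Admissible {σ : Type} {g : ℕ} (F : Type) [Field F] [NumberField F] (ι : F →+* ℂ) (ξ : Fin g → ℂ) (d : ℕ) (H : ℝ)
    (P : MvPolynomial σ ℂ) : Prop :=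
  (∀ y, P.degreeOf y ≤ d) ∧
    ∀ s, ∃ c : Fin g → 𝓞 F, (∀ i (φ : F →+* ℂ), ‖φ (c i)‖ ≤ H) ∧ P.coeff s = ∑ i, ξ i * ι (c i)

/-- The complex numbers `v` are good: every admissible polynomial takes at them a value which is at least `δ` times each of
its coefficients, and `π` and these numbers satisfy no relation `Q = 0` with a nonzero polynomial `Q` of degree at most `d`
in each variable whose coefficients are integers of `F` with conjugates of absolute value at most `H`. -/
def Good {σ : Type} {g : ℕ} (F : Type) [Field F] [NumberField F] (ι : F →+* ℂ) (ξ : Fin g → ℂ) (d : ℕ)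
    (H δ : ℝ) (v : σ → ℂ) : Prop :=
  (∀ P : MvPolynomial σ ℂ, Admissible F ι ξ d H P → ∀ s, δ * ‖P.coeff s‖ ≤ ‖MvPolynomial.aeval v P‖) ∧
  ∀ Q : MvPolynomial (Option σ) (𝓞 F), Q ≠ 0 → (∀ x, Q.degreeOf x ≤ d) →
    (∀ s (φ : F →+* ℂ), ‖φ ((Q.coeff s : 𝓞 F) : F)‖ ≤ H) →
    MvPolynomial.eval₂ (ι.comp (algebraMap (𝓞 F) F)) (fun o => o.elim (Real.pi : ℂ) v) Q ≠ 0

/-- The element `x` of `F` is a quotient of integers all of whose conjugates have absolute value at most `T`. -/
def HeightLe (F : Type) [Field F] [NumberField F] (T : ℝ) (x : F) : Prop :=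
  ∃ a b : 𝓞 F, b ≠ 0 ∧ (∀ φ : F →+* ℂ, ‖φ a‖ ≤ T ∧ ‖φ b‖ ≤ T) ∧ x = a / b

/-- The height of `x`: the least `T` such that `x` is a quotient of two integers of `F` all of whose conjugates have
absolute value at most `T`. -/
noncomputable def height (F : Type) [Field F] [NumberField F] (x : F) : ℝ := sInf {T : ℝ | HeightLe F T x}

theorem value_eq (θ : ℝ) (x : ℂ) (j : Fin 6) : value θ x j = Pool.Agent.N603.DB.PiF.values θ j x := by
  fin_cases j <;> rfl

/-- **The numbers `(π x)^(π x)` and denominators of good approximations.** Let `θ` be a positive irrational number, for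
instance `π` (see `irrational_pi`), let `c_0, c_1, …` be complex numbers, let `G` have steps `≥ a > 0` and growth at
most `v^b`, `0 ≤ κ ≤ 1`, `β` in `ℝ^m` and `τ > 0`. There is a set `E` in `ℝ^m` of Hausdorff dimension at most
`(m + κ) / (1 + τ)` such that for all `α` outside `E`, all number fields `F` in `ℂ`, all `g`, `d`, `A` and all compact
subsets `L` of the plane without `(-∞, 0]`:
(1) There is `B` such that for all `C` and all large `q` with `‖q α_j - β_j‖ ≤ C q^(-τ)` for all `j`: at EVERY `x` in
`F ∩ L` with `|height x - G q| ≤ q^κ` the six numbers are good, for the degree `d`, the height `T ^ A`, the numbers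
`c_0, …, c_(g-1)` and the measure `T ^ (-B)`, where `T` is the height of `x`.
(2) For all `C` and all large `q` with `‖q α_j - β_j‖ ≤ C q^(-τ)` for all `j` and EVERY `x` in `F ∩ L` with
`|height x - G q| ≤ q^κ` the number `(θ x)^(θ x)` is no element of `F` of height at most `T ^ A`.
The infimum in the definition of the height is a minimum, the height of a rational number in `(0, 1)` is its
denominator, and the functions `a v^b` with `a > 0`, `b ≥ 1` are examples of `G`. -/
theorem result :
    (∀ θ : ℝ, 0 < θ → Irrational θ → ∀ (c : ℕ → ℂ) (G : ℕ → ℝ) (b : ℝ), Expanding G b → ∀ κ : ℝ, 0 ≤ κ → κ ≤ 1 →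
      ∀ (m : ℕ) (β : Fin m → ℝ) (τ : ℝ), 0 < τ →
      ∃ E : Set (Fin m → ℝ), dimH E ≤ ENNReal.ofReal ((m + κ) / (1 + τ)) ∧
        ∀ α, α ∉ E → ∀ (F : IntermediateField ℚ ℂ) [NumberField F] (g d : ℕ) (A : ℝ) (L : Set ℂ),
          IsCompact L → L ⊆ Complex.slitPlane →
          (∃ B : ℝ, ∀ C : ℝ, ∃ Q : ℕ, ∀ q : ℕ, Q ≤ q →
            Solves α β q (C * (q : ℝ) ^ (-τ)) → ∀ x : F, (x : ℂ) ∈ L →
              |height F x - G q| ≤ (q : ℝ) ^ κ →
                Good F (algebraMap F ℂ) (fun i : Fin g => c i) d (height F x ^ A) (height F x ^ (-B))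
                  (value θ x)) ∧
          ∀ C : ℝ, ∃ Q : ℕ, ∀ q : ℕ, Q ≤ q →
            Solves α β q (C * (q : ℝ) ^ (-τ)) → ∀ x : F, (x : ℂ) ∈ L →
              |height F x - G q| ≤ (q : ℝ) ^ κ →
                ∀ y : F, height F y ≤ height F x ^ A → ((θ : ℂ) * x) ^ ((θ : ℂ) * x) ≠ (y : ℂ)) ∧
    (∀ (F : Type) [Field F] [NumberField F] (x : F) (T : ℝ), height F x ≤ T ↔ HeightLe F T x) ∧
    (∀ (F : Type) [Field F] [NumberField F] (r : ℚ), 0 < r → r < 1 → height F (r : F) = r.den) ∧
    ∀ a b : ℝ, 0 < a → 1 ≤ b → Expanding (fun v => a * (v : ℝ) ^ b) b := by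
  refine ⟨fun θ hθ hθi c G b hG κ hκ hκ1 m β τ hτ => ?_, fun F _ _ x T => Pool.Agent.N603.DA.ht_le_iff F x T,
    fun F _ _ r h0 h1 => Pool.Agent.N603.DA.ht_rat F r h0 h1, fun a b ha hb => expanding_pow ha hb⟩
  have hv : ∀ x : ℂ, (fun j : Fin 6 => Pool.Agent.N603.DB.PiF.values θ j x) = value θ x := fun x =>
    funext fun j => (value_eq θ x j).symm
  obtain ⟨E, hE, h⟩ := Pool.Agent.N603.DB.master_all' (Pool.Agent.N603.DB.PiF.values θ) Complex.slitPlane
    Complex.isOpen_slitPlane (fun j x hx => Pool.Agent.N603.DB.PiF.an hθ j x hx)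
    (Pool.Agent.N603.DB.PiF.loc hθ hθi) c hG hκ hκ1 β hτ
  obtain ⟨E', hE', h'⟩ := Pool.Agent.N603.DB.master_all' (Pool.Agent.N603.DB.PiF.values θ) Complex.slitPlane
    Complex.isOpen_slitPlane (fun j x hx => Pool.Agent.N603.DB.PiF.an hθ j x hx)
    (Pool.Agent.N603.DB.PiF.loc hθ hθi) (fun _ => 1) hG hκ hκ1 β hτ
  refine ⟨E ∪ E', ?_, fun α hα F _ g d A L hL hLS => ⟨?_, fun C => ?_⟩⟩
  · rw [dimH_union]
    exact max_le hE hE'
  · obtain ⟨B, hB⟩ := h α (fun h1 => hα (Or.inl h1)) F g d A L hL hLS
    refine ⟨B, fun C => ?_⟩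
    obtain ⟨Q, hQ⟩ := hB C
    refine ⟨Q, fun q hq hs x hx hG' => ?_⟩
    have h1 := hQ q hq hs x hx hG'
    rw [hv] at h1
    exact h1
  · obtain ⟨B, hB⟩ := h' α (fun h1 => hα (Or.inr h1)) F 1 1 A L hL hLS
    obtain ⟨Q, hQ⟩ := hB C
    refine ⟨Q, fun q hq hs x hx hG' y hy => ?_⟩
    have h1 := hQ q hq hs x hx hG'
    have hx0 : (x : ℂ) ≠ 0 := Complex.slitPlane_ne_zero (hLS hx)
    have hpos : 0 < Pool.Agent.N603.DA.ht F x ^ (-B) :=
      Real.rpow_pos_of_pos (by linarith [Pool.Agent.N603.DA.one_le_ht F x]) _
    obtain ⟨a, b', hb, hab, hyab⟩ := (Pool.Agent.N603.DA.ht_le_iff F y _).1 hy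
    have h2 := Pool.Agent.N603.DB.not_quot (i := 3) (j := 5) hpos (by decide) h1 a b' hb hab
    rw [Pool.Agent.N603.DB.PiF.pow_self hθ hx0, hyab]
    exact h2

end Pool.Agent.Results.MP_4c2ad3_nt.SimultaneousApproximations
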